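import Pool.Agent.H16.TO.Targets
import Pool.Agent.H69.Mt.Norm

/-!
# MP_64fb07_lc, module PB: pull-back of a spectrum along a monomial
-/

set_option autoImplicit false

namespace Pool.Agent.H84.TW

open Pool.Agent.H69.Sp Pool.Agent.H69.Mt Pool.Agent.H16.TO

theorem fd_pow (k : ℕ) : ∀ x y : ℕ, FD (fun _ _ v => 1 ≤ v x ∧ v y = v x ^ k) := by
  induction k with
  | zero =>
    intro x y
    refine ((FD.num 0 x).not.and (FD.num 1 y)).congr fun N E v hv => ?_
    rw [pow_zero]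
    refine and_congr_left fun _ => ?_
    omega
  | succ k ih =>
    intro x y
    have hwx : x ≠ x + y + 1 := by omega
    have hwy : y ≠ x + y + 1 := by omega
    refine (FD.ex (x + y + 1) ((ih x (x + y + 1)).and (FD.mul (x + y + 1) x y))).congr
      fun N E v hv => ?_
    simp only [Function.update_self, Function.update_of_ne hwx, Function.update_of_ne hwy]
    constructor
    · rintro ⟨a, _, ⟨h1, h2⟩, h3⟩
      refine ⟨h1, ?_⟩
      rw [← h3, h2, pow_succ]
    · rintro ⟨h1, h2⟩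
      refine ⟨v x ^ k, ?_, ⟨h1, rfl⟩, ?_⟩
      · have h3 : v x ^ k * 1 ≤ v x ^ k * v x := Nat.mul_le_mul_left _ h1
        have h4 := hv y
        rw [h2, pow_succ] at h4
        omega
      · rw [h2, pow_succ]

theorem fd_mono (c r : ℕ) (hc : 0 < c) :
    FD (fun _ _ v => 1 ≤ v 1 ∧ v 2 = c * v 1 ^ r) := by
  refine (FD.ex 3 (FD.ex 4 ((fd_pow r 1 3).and ((FD.num c 4).and (FD.mul 4 3 2))))).congr
    fun N E v hv => ?_
  simp only [Function.update_self, Function.update_of_ne, ne_eq, not_false_eq_true,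
    OfNat.one_ne_ofNat, Nat.reduceEqDiff]
  constructor
  · rintro ⟨t, _, w, _, ⟨h1, h2⟩, h3, h4⟩
    exact ⟨h1, by rw [← h4, h3, h2]⟩
  · rintro ⟨h1, h2⟩
    have h3 : 1 ≤ v 1 ^ r := Nat.one_le_pow _ _ h1
    have h4 := hv 2
    rw [h2] at h4
    have h5 : 1 * v 1 ^ r ≤ c * v 1 ^ r := Nat.mul_le_mul_right _ hc
    have h6 : c * 1 ≤ c * v 1 ^ r := Nat.mul_le_mul_left _ h3
    exact ⟨v 1 ^ r, by omega, c, by omega, ⟨h1, rfl⟩, rfl, h2.symm⟩

theorem pf_pb : T_PB := by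
  intro X hX c r hc _
  refine wrapT (P := fun N _ m => ∃ y, y < N ∧ ((1 ≤ m ∧ y = c * m ^ r) ∧ y ∈ X)) ?_ ?_ (c + r)
    fun m hm => ?_
  · refine (ED.ex 2 ((fd_mono c r hc).ed.and (mem_ed hX 2))).congr fun N E v hv => ?_
    simp only [Function.update_self, Function.update_of_ne, ne_eq, not_false_eq_true,
      OfNat.one_ne_ofNat]
  · rintro ⟨h, _⟩
    omega
  · have hlt : c * m ^ r < (m ^ 2 ^ (c + r)) ^ 8 := by
      have h1 : c ≤ m ^ c := (Nat.lt_two_pow_self (n := c)).le.trans (Nat.pow_le_pow_left hm c)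
      have h2 : c * m ^ r ≤ m ^ (c + r) := by
        rw [pow_add]
        exact Nat.mul_le_mul_right _ h1
      have h3 : m ^ (c + r) ≤ m ^ 2 ^ (c + r) :=
        Nat.pow_le_pow_right (by omega) (Nat.lt_two_pow_self (n := c + r)).le
      have h4 : 1 < m ^ 2 ^ (c + r) := Nat.one_lt_pow (by positivity) (by omega)
      calc c * m ^ r ≤ m ^ 2 ^ (c + r) := h2.trans h3
        _ = (m ^ 2 ^ (c + r)) ^ 1 := (pow_one _).symm
        _ < (m ^ 2 ^ (c + r)) ^ 8 := Nat.pow_lt_pow_right h4 (by norm_num)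
    constructor
    · rintro ⟨_, h2⟩
      exact ⟨fun _ _ => False, _, hlt, ⟨by omega, rfl⟩, h2⟩
    · rintro ⟨_, y, _, ⟨_, rfl⟩, h2⟩
      exact ⟨by omega, h2⟩

end Pool.Agent.H84.TW
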